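import Mathlib
import Pool.Agent.W307.RS.MainQ
import Pool.Agent.W307.RT.Tors

/-!
# Ranks over a multiquadratic field of the elliptic curves over `ℚ` with `Z/2 x Z/6`

Let `F` be a multiquadratic number field. The average rank over `F` of all elliptic curves over `ℚ`
whose group of rational points has a subgroup isomorphic to `Z/2 x Z/6`, ordered by height, is
bounded, even the average of `2 ^ (rank E(F) / 2 ^ r)`, where `F` is generated by `r` square roots.
-/

namespace Pool.Agent.Results.MP_7cad78_nt.MultiquadraticTwoSix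

open Finset Filter

/-- the curve `y² = x³ + A x + B` over the field `F` -/
def E (F : Type) [Field F] (A B : ℤ) : WeierstrassCurve F := ⟨0, 0, 0, (A : F), (B : F)⟩

open Classical in
/-- The pairs `(A, B)` of integers such that `4 A³ + 27 B² ≠ 0`, there is no prime `p` with
`p⁴ ∣ A` and `p⁶ ∣ B`, the height `max (4 |A|³) (27 B²)` is at most `H`, and `Z/2 x Z/6` embeds in
the group of the rational points of `y² = x³ + A x + B`. (The bounds `|A|, |B| ≤ H` follow from the
bound of the height. Every elliptic curve over `ℚ` is isomorphic to `E ℚ A B` for exactly one pair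
with the first two properties.) -/
noncomputable def Fam (H : ℕ) : Finset (ℤ × ℤ) :=
  ((Icc (-(H : ℤ)) H) ×ˢ (Icc (-(H : ℤ)) H)).filter (fun c : ℤ × ℤ =>
    4 * c.1 ^ 3 + 27 * c.2 ^ 2 ≠ 0 ∧ 4 * |c.1| ^ 3 ≤ H ∧ 27 * c.2 ^ 2 ≤ H ∧
    (∀ p : ℕ, p.Prime → ¬ ((p : ℤ) ^ 4 ∣ c.1 ∧ (p : ℤ) ^ 6 ∣ c.2)) ∧
    ∃ f : ZMod 2 × ZMod 6 →+ (E ℚ c.1 c.2).toAffine.Point, Function.Injective f)

lemma Fam_eq (H : ℕ) : Fam H = Pool.Agent.W307.RT.Cv 6 H := by
  classical
  unfold Fam Pool.Agent.W307.RT.Cv
  apply filter_congr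
  intro c _
  have h : Pool.Agent.W307.RT.HasT 6 (Pool.Agent.W307.RT.Sh c.1 c.2) ↔
      ∃ f : ZMod 2 × ZMod 6 →+ (Pool.Agent.W307.RT.Sh c.1 c.2).toAffine.Point,
        Function.Injective f := Pool.Agent.W307.RT.tors_iff
  rw [h]
  have hE : E ℚ c.1 c.2 = Pool.Agent.W307.RT.Sh c.1 c.2 := rfl
  rw [hE]

/-- The number of these curves of height at most `H` tends to infinity. -/
theorem card_tendsto : Tendsto (fun H : ℕ => (Fam H).card) atTop atTop := by
  simp only [Fam_eq]
  exact Pool.Agent.W307.RT.tendsto_of_low Pool.Agent.W376.RTL.low6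

open Classical in
/-- **Theorem.** Let `F` be a number field generated by the square roots `x i` of `r` nonzero
integers `d i`. There is a constant `C` such that for all `H` the sum of
`2 ^ (rank E(F) / 2 ^ r)` over the curves `E` over `ℚ` of height at most `H` with a subgroup
`Z/2 x Z/6` is at most `C` times their number. -/
theorem result (F : Type) [Field F] [NumberField F] (r : ℕ) (x : Fin r → F) (d : Fin r → ℤ)
    (hx : ∀ i, x i ^ 2 = (d i : F)) (hd : ∀ i, d i ≠ 0)
    (hF : IntermediateField.adjoin ℚ (Set.range x) = ⊤) :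
    ∃ C : ℝ, ∀ H : ℕ, ∑ c ∈ Fam H,
      (2 : ℝ) ^ ((Module.finrank ℤ (E F c.1 c.2).toAffine.Point : ℝ) / 2 ^ r) ≤
        C * (Fam H).card := by
  simp only [Fam_eq]
  exact Pool.Agent.W307.RS.final3_of Pool.Agent.W307.RS.mq2 F r x d hx hd hF

end Pool.Agent.Results.MP_7cad78_nt.MultiquadraticTwoSix
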